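import Pool.Agent.H83.UE.Targets3

/-!
# MP_75a732_an, row KEY: the zones with `A ⊄ I` are negligible
-/

set_option autoImplicit false

open Polynomial MeasureTheory Filter Topology Set
open scoped OnePoint ComplexConjugate ComplexOrder Laplacian ENNReal Nat

namespace Pool.Agent.H68.UDB

open Pool.Agent.H83.UE

lemma meas_om (E : Finset (OnePoint ℂ)) : Measurable (om E) := by
  unfold om omh cd wd
  refine Finset.measurable_prod _ fun e _ => ?_
  have h1 : Continuous fun z : ℂ => ‖((z, (1 : ℂ)) : ℂ × ℂ).1 * (vec e).2 -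
      ((z, (1 : ℂ)) : ℂ × ℂ).2 * (vec e).1‖ := by fun_prop
  have h2 : Continuous fun z : ℂ => ‖((z, (1 : ℂ)) : ℂ × ℂ)‖ * ‖vec e‖ := by fun_prop
  exact h1.measurable.div h2.measurable

/-- the bad set -/
def bad {k : ℕ} (E : Fin k → Finset (OnePoint ℂ)) (B : Finset (Fin k))
    (h : MvPolynomial (Fin k) ℂ) (D : ℕ) (a b : ℝ) : Set (Fin k → ℂ) :=
  {z | (∀ l ∈ B, Real.exp (-b) ≤ om (E l) (z l)) ∧
    ‖MvPolynomial.eval z h‖ ≤ Real.exp (-a) * ∏ l ∈ B, (max 1 ‖z l‖) ^ D}

lemma meas_bad {k : ℕ} (E : Fin k → Finset (OnePoint ℂ)) (B : Finset (Fin k))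
    (h : MvPolynomial (Fin k) ℂ) (D : ℕ) (a b : ℝ) : MeasurableSet (bad E B h D a b) := by
  have h1 : MeasurableSet {z : Fin k → ℂ | ∀ l ∈ B, Real.exp (-b) ≤ om (E l) (z l)} := by
    have h2 : {z : Fin k → ℂ | ∀ l ∈ B, Real.exp (-b) ≤ om (E l) (z l)} =
        ⋂ l ∈ B, {z : Fin k → ℂ | Real.exp (-b) ≤ om (E l) (z l)} := by
      ext z
      simp
    rw [h2]
    exact Finset.measurableSet_biInter _ fun l _ =>
      measurableSet_le measurable_const ((meas_om (E l)).comp (measurable_pi_apply l))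
  have h3 : MeasurableSet {z : Fin k → ℂ | ‖MvPolynomial.eval z h‖ ≤
      Real.exp (-a) * ∏ l ∈ B, (max 1 ‖z l‖) ^ D} := by
    refine measurableSet_le (MvPolynomial.continuous_eval h).norm.measurable ?_
    refine Continuous.measurable ?_
    refine continuous_const.mul (continuous_finsetProd _ fun l _ => ?_)
    fun_prop
  exact h1.inter h3

lemma meas_zone {k : ℕ} (E : Fin k → Finset (OnePoint ℂ)) (A : Finset (Fin k)) (a b : ℝ) :
    MeasurableSet (Zone E A a b) := by
  have h2 : Zone E A a b =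
      (⋂ l ∈ A, {z : Fin k → ℂ | om (E l) (z l) ≤ Real.exp (-a)}) ∩
      ⋂ l ∈ Aᶜ, {z : Fin k → ℂ | Real.exp (-b) ≤ om (E l) (z l)} := by
    ext z
    simp [Zone]
  rw [h2]
  refine MeasurableSet.inter ?_ ?_
  · exact Finset.measurableSet_biInter _ fun l _ =>
      measurableSet_le ((meas_om (E l)).comp (measurable_pi_apply l)) measurable_const
  · exact Finset.measurableSet_biInter _ fun l _ =>
      measurableSet_le measurable_const ((meas_om (E l)).comp (measurable_pi_apply l))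

lemma bad_congr {k : ℕ} (E : Fin k → Finset (OnePoint ℂ)) (B : Finset (Fin k))
    (h : MvPolynomial (Fin k) ℂ) (hv : h.vars ⊆ B) (D : ℕ) (a b : ℝ) {z z' : Fin k → ℂ}
    (hz : ∀ l ∈ B, z l = z' l) (hb : z ∈ bad E B h D a b) : z' ∈ bad E B h D a b := by
  obtain ⟨h1, h2⟩ := hb
  refine ⟨fun l hl => ?_, ?_⟩
  · rw [← hz l hl]; exact h1 l hl
  · have h3 : MvPolynomial.eval z' h = MvPolynomial.eval z h :=
      MvPolynomial.eval₂Hom_congr' rfl (fun i hi _ => (hz i (hv hi)).symm) rfl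
    have h4 : ∏ l ∈ B, (max 1 ‖z' l‖) ^ D = ∏ l ∈ B, (max 1 ‖z l‖) ^ D :=
      Finset.prod_congr rfl fun l hl => by rw [hz l hl]
    rw [h3, h4]
    exact h2

lemma zone_bad {k : ℕ} {E : Fin k → Finset (OnePoint ℂ)} {A I : Finset (Fin k)}
    {h : MvPolynomial (Fin k) ℂ} {D N : ℕ} {C₀ c T η : ℝ} (hN : 0 < N)
    (hC : C₀ ≤ Real.exp (c * T / 2)) {z : Fin k → ℂ}
    (hz : z ∈ Zone E A (c * T) (η * (c * T)))
    (hh : ∀ t : ℝ, 0 ≤ t → (∀ l ∈ A, om (E l) (z l) ≤ t) →
      ‖MvPolynomial.eval z h‖ ^ N ≤ C₀ * (∏ l ∈ I \ A, (max 1 ‖z l‖) ^ D) ^ N * t) :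
    z ∈ bad E (I \ A) h D (c / (2 * N) * T) (η * (c * T)) := by
  obtain ⟨h1, h2⟩ := hz
  refine ⟨fun l hl => h2 l (Finset.mem_sdiff.mp hl).2, ?_⟩
  have h3 := hh (Real.exp (-(c * T))) (Real.exp_pos _).le h1
  set Pz : ℝ := ∏ l ∈ I \ A, (max 1 ‖z l‖) ^ D with hP
  have hP0 : 0 ≤ Pz := Finset.prod_nonneg fun l _ => by positivity
  have hN' : (N : ℝ) ≠ 0 := by positivity
  refine le_of_pow_le_pow_left₀ hN.ne' (by positivity) (h3.trans ?_)
  rw [mul_pow, ← Real.exp_nat_mul]
  have h4 : (N : ℝ) * (-(c / (2 * N) * T)) = c * T / 2 + -(c * T) := by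
    field_simp
    ring
  rw [h4, Real.exp_add]
  have h5 : 0 ≤ Pz ^ N * Real.exp (-(c * T)) := by positivity
  nlinarith [mul_le_mul_of_nonneg_right hC h5]

/-- the restriction to the coordinates in `I` of the bad set -/
lemma sub_bad {k d : ℕ} (g : Fin k → RatMap d) (E : Fin k → Finset (OnePoint ℂ))
    (I A : Finset (Fin k)) (h : MvPolynomial (Fin k) ℂ)
    (h' : MvPolynomial {j // j ∈ I} ℂ) (hh : MvPolynomial.rename Subtype.val h' = h)
    (D n : ℕ) (a b : ℝ) (x : {j // j ∈ I} → ℂ)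
    (hx : (fun l => if hl : l ∈ I then (g l).val n (x ⟨l, hl⟩) else 0) ∈
      bad E (I \ A) h D a b) :
    (∀ l ∈ (Finset.univ.filter fun j : {j // j ∈ I} => j.1 ∉ A),
      Real.exp (-b) ≤ om (E l.1) ((g l.1).val n (x l))) ∧
    ‖MvPolynomial.eval (fun l : {j // j ∈ I} => (g l.1).val n (x l)) h'‖ ≤
      Real.exp (-a) * ∏ l ∈ (Finset.univ.filter fun j : {j // j ∈ I} => j.1 ∉ A),
        (max 1 ‖(g l.1).val n (x l)‖) ^ D := by
  obtain ⟨h1, h2⟩ := hx
  have h0 : ∀ l : {j // j ∈ I},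
      (if hl : l.1 ∈ I then (g l.1).val n (x ⟨l.1, hl⟩) else 0) = (g l.1).val n (x l) :=
    fun l => dif_pos l.2
  refine ⟨fun l hl => ?_, ?_⟩
  · have h3 := h1 l.1 (Finset.mem_sdiff.mpr ⟨l.2, (Finset.mem_filter.mp hl).2⟩)
    beta_reduce at h3
    rwa [h0 l] at h3
  · rw [← hh, MvPolynomial.eval_rename] at h2
    have h4 : ((fun l => if hl : l ∈ I then (g l).val n (x ⟨l, hl⟩) else 0) ∘
        (Subtype.val : {j // j ∈ I} → Fin k)) = fun l => (g l.1).val n (x l) :=
      funext fun l => h0 l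
    rw [h4] at h2
    refine h2.trans (le_of_eq ?_)
    congr 1
    refine Finset.prod_bij' (fun l hl => ⟨l, (Finset.mem_sdiff.mp hl).1⟩) (fun l _ => l.1)
      ?_ ?_ ?_ ?_ ?_
    · intro l hl
      exact Finset.mem_filter.mpr ⟨Finset.mem_univ _, (Finset.mem_sdiff.mp hl).2⟩
    · intro l hl
      exact Finset.mem_sdiff.mpr ⟨l.2, (Finset.mem_filter.mp hl).2⟩
    · intro l hl; rfl
    · intro l hl; rfl
    · intro l hl
      beta_reduce
      rw [dif_pos (Finset.mem_sdiff.mp hl).1]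

theorem pf_KEY (h1 : T_VOL) (h2 : T_KMG) : T_KEY := by
  intro k m d hd g E κ hG S hS A I hAI R K
  obtain ⟨h, D, N, C₀, hh0, hvars, hdeg, hN, hae⟩ := hS A I hAI
  obtain ⟨h', hh'⟩ := MvPolynomial.exists_rename_eq_of_vars_subset_range h
    (Subtype.val : {j // j ∈ I.1} → Fin k) Subtype.val_injective (by
      intro i hi
      exact ⟨⟨i, (Finset.mem_sdiff.mp (hvars hi)).1⟩, rfl⟩)
  have hd' : ∀ l : {j // j ∈ I.1}, h'.degreeOf l = h.degreeOf l.1 := by
    intro l
    rw [← hh']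
    exact (MvPolynomial.degreeOf_rename_of_injective Subtype.val_injective l).symm
  have hh'0 : h' ≠ 0 := by
    rintro rfl
    rw [map_zero] at hh'
    exact hh0 hh'.symm
  set B' : Finset {j // j ∈ I.1} := Finset.univ.filter fun j => j.1 ∉ A with hB'
  have hv' : h'.vars ⊆ B' := by
    intro l hl
    rw [MvPolynomial.mem_vars_iff_degreeOf_ne_zero, hd' l,
      ← MvPolynomial.mem_vars_iff_degreeOf_ne_zero] at hl
    exact Finset.mem_filter.mpr ⟨Finset.mem_univ _, (Finset.mem_sdiff.mp (hvars hl)).2⟩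
  obtain ⟨C₁, hC₁, hV⟩ := h1 {j // j ∈ I.1} d hd (fun l => g l.1) (fun l => E l.1) κ
    (fun l => hG l.1) B' h' hh'0 hv' D (fun l => by rw [hd' l]; exact hdeg l.1) R
  refine ⟨(S.c I : ℝ) * (max K 0) ^ m * C₁ * (2 * N), by positivity, ?_⟩
  intro c η hc hη
  have hN' : (0 : ℝ) < N := by exact_mod_cast hN
  obtain ⟨n₁, hn₁⟩ := hV (c / (2 * N)) (2 * N * η) (by positivity) (by positivity)
  obtain ⟨n₂, hn₂⟩ : ∃ n₂ : ℕ, ∀ n, n₂ ≤ n → C₀ ≤ Real.exp (c * (d : ℝ) ^ n / 2) := by
    have h3 : Tendsto (fun n : ℕ => Real.exp (c * (d : ℝ) ^ n / 2)) atTop atTop := by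
      refine Real.tendsto_exp_atTop.comp ?_
      have h4 : Tendsto (fun n : ℕ => (d : ℝ) ^ n) atTop atTop :=
        tendsto_pow_atTop_atTop_of_one_lt (by exact_mod_cast hd)
      exact (h4.const_mul_atTop hc).atTop_div_const (by norm_num)
    exact eventually_atTop.mp (h3.eventually_ge_atTop C₀)
  refine ⟨max n₁ n₂, fun n hn ρ hρm hρK hρR => ?_⟩
  have hn1 := hn₁ n ((le_max_left _ _).trans hn)
  have hn2 := hn₂ n ((le_max_right _ _).trans hn)
  set T : ℝ := (d : ℝ) ^ n with hT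
  set a : ℝ := c / (2 * N) * T with ha
  set b : ℝ := η * (c * T) with hb
  set bd : Set (Fin k → ℂ) := bad E (I.1 \ A) h D a b with hbd
  set F : (Fin k → ℂ) → ℝ≥0∞ := bd.indicator 1 with hF
  have hFm : Measurable F := measurable_one.indicator (meas_bad _ _ _ _ _ _)
  have hFc : ∀ z z' : Fin k → ℂ, (∀ l ∈ I.1, z l = z' l) → F z = F z' := by
    intro z z' hzz
    have hiff : z ∈ bd ↔ z' ∈ bd :=
      ⟨bad_congr E _ h hvars D a b fun l hl => hzz l (Finset.mem_sdiff.mp hl).1,
        bad_congr E _ h hvars D a b fun l hl => (hzz l (Finset.mem_sdiff.mp hl).1).symm⟩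
    by_cases hz : z ∈ bd
    · rw [hF, indicator_of_mem hz, indicator_of_mem (hiff.mp hz)]
      rfl
    · rw [hF, indicator_of_notMem hz, indicator_of_notMem (fun h5 => hz (hiff.mpr h5))]
  have hK := h2 k m d hd g S I n ρ F hρm hFm hFc
  calc ∫⁻ z in Zone E A (c * T) b, (∏ l ∈ I.1, nfac (g l) n True True (ρ l) (z l)) *
        ENNReal.ofReal (S.h z I I).re ∂S.σ
      = ∫⁻ z, (Zone E A (c * T) b).indicator (fun z =>
          (∏ l ∈ I.1, nfac (g l) n True True (ρ l) (z l)) *
          ENNReal.ofReal (S.h z I I).re) z ∂S.σ := (lintegral_indicator (meas_zone _ _ _ _) _).symm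
    _ ≤ ∫⁻ z, (∏ l ∈ I.1, nfac (g l) n True True (ρ l) (z l)) * F z *
        ENNReal.ofReal (S.h z I I).re ∂S.σ := by
        refine lintegral_mono_ae ?_
        filter_upwards [hae] with z hz
        by_cases hzZ : z ∈ Zone E A (c * T) b
        · rw [indicator_of_mem hzZ]
          by_cases h0 : S.h z I I = 0
          · rw [h0]; simp
          · have h5 : z ∈ bd := zone_bad hN hn2 hzZ (hz h0)
            have h6 : F z = 1 := by rw [hF, indicator_of_mem h5]; rfl
            rw [h6, mul_one]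
        · rw [indicator_of_notMem hzZ]
          exact zero_le
    _ = S.c I * ∫⁻ x : {j // j ∈ I.1} → ℂ, (∏ l, ρ l.1 (x l)) *
        F (fun l => if h : l ∈ I.1 then (g l).val n (x ⟨l, h⟩) else 0) := hK
    _ ≤ S.c I * (ENNReal.ofReal K ^ m * ENNReal.ofReal (C₁ * (2 * N * η))) := by
        gcongr
        set bd' : Set ({j // j ∈ I.1} → ℂ) := {x | (∀ l, ‖x l‖ < R) ∧
          (∀ l ∈ B', Real.exp (-(2 * N * η * (c / (2 * N) * (d : ℝ) ^ n))) ≤
            om (E l.1) ((g l.1).val n (x l))) ∧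
          ‖MvPolynomial.eval (fun l : {j // j ∈ I.1} => (g l.1).val n (x l)) h'‖ ≤
            Real.exp (-(c / (2 * N) * (d : ℝ) ^ n)) *
              ∏ l ∈ B', (max 1 ‖(g l.1).val n (x l)‖) ^ D} with hbd'
        have hbb : 2 * N * η * (c / (2 * N) * (d : ℝ) ^ n) = b := by
          rw [hb, hT]; field_simp
        calc ∫⁻ x : {j // j ∈ I.1} → ℂ, (∏ l, ρ l.1 (x l)) *
              F (fun l => if h : l ∈ I.1 then (g l).val n (x ⟨l, h⟩) else 0)
            ≤ ∫⁻ x : {j // j ∈ I.1} → ℂ, ENNReal.ofReal K ^ m * bd'.indicator 1 x := by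
              refine lintegral_mono fun x => ?_
              by_cases hx : (fun l => if h : l ∈ I.1 then (g l).val n (x ⟨l, h⟩) else 0) ∈ bd
              · by_cases hxR : ∀ l, ‖x l‖ < R
                · have h5 := sub_bad g E I.1 A h h' hh' D n a b x hx
                  have h6 : x ∈ bd' := by
                    refine ⟨hxR, ?_, h5.2⟩
                    rw [hbb]
                    exact h5.1
                  rw [hF, indicator_of_mem hx, indicator_of_mem h6]
                  refine mul_le_mul' ?_ le_rfl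
                  calc ∏ l : {j // j ∈ I.1}, ρ l.1 (x l)
                      ≤ ∏ _l : {j // j ∈ I.1}, ENNReal.ofReal K :=
                        Finset.prod_le_prod' fun l _ => hρK _ _
                    _ = ENNReal.ofReal K ^ m := by
                        rw [Finset.prod_const, Finset.card_univ, Fintype.card_coe, I.2]
                · push Not at hxR
                  obtain ⟨l, hl⟩ := hxR
                  have h7 : ∏ l : {j // j ∈ I.1}, ρ l.1 (x l) = 0 :=
                    Finset.prod_eq_zero (Finset.mem_univ l) (hρR l.1 (x l) hl)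
                  rw [h7, zero_mul]
                  exact zero_le
              · rw [hF, indicator_of_notMem hx, mul_zero]
                exact zero_le
          _ = ENNReal.ofReal K ^ m * ∫⁻ x, bd'.indicator 1 x :=
              lintegral_const_mul' _ _ (ENNReal.pow_ne_top ENNReal.ofReal_ne_top)
          _ ≤ ENNReal.ofReal K ^ m * ENNReal.ofReal (C₁ * (2 * N * η)) := by
              gcongr
              exact (lintegral_indicator_one_le _).trans hn1
    _ = ENNReal.ofReal ((S.c I : ℝ) * (max K 0) ^ m * C₁ * (2 * N) * η) := by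
        have h8 : (S.c I : ℝ) * (max K 0) ^ m * C₁ * (2 * N) * η =
            (S.c I : ℝ) * ((max K 0) ^ m * (C₁ * (2 * N * η))) := by ring
        have h9 : ENNReal.ofReal (max K 0) = ENNReal.ofReal K := by
          rw [ENNReal.ofReal_max]; simp
        rw [h8]
        generalize C₁ * (2 * (N : ℝ) * η) = y
        rw [ENNReal.ofReal_mul (by positivity), ENNReal.ofReal_mul (by positivity),
          ENNReal.ofReal_pow (by positivity), h9, ENNReal.ofReal_coe_nnreal]

end Pool.Agent.H68.UDB
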